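import Pool.Agent.H30.MtC

set_option autoImplicit false

namespace Pool.Agent.Results.MP_2a01b0_gt.Indep

open Pool.Agent.H30.Mt Cardinal

/-- Under `𝔲 < 𝔤` property `(*)` implies Menger's property; under the continuum hypothesis, and
also under `𝔡 < 𝔠`, it does not. -/
theorem result :
    (uNum < gNum → ∀ (X : Type) [TopologicalSpace X] [T35Space X] [Infinite X],
      HasStar X → IsMenger X) ∧
    (((𝔠 : Cardinal.{0}) = ℵ₁ ∨ dNum < 𝔠) →
      ∃ D : Set (ℕ → ℕ), D.Infinite ∧ T35Space D ∧ HasStar D ∧ ¬ IsMenger D) := by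
  refine ⟨fun h X _ _ _ hX => hX.menger h, fun h => ?_⟩
  obtain ⟨D, h1, h2⟩ : ∃ D : Set (ℕ → ℕ),
      (∀ g : ℕ → ℕ, ∃ f ∈ D, ∀ᶠ n in Filter.atTop, g n ≤ f n) ∧ Hit D := by
    rcases h with h | h
    · exact hit_of_ch h
    · exact let ⟨D, h1, h2⟩ := exists_dom; ⟨D, h1, hit_of_lt (h2.trans_lt h)⟩
  have := (not_menger h1).1.nonempty.to_subtype
  exact ⟨D, (not_menger h1).1, inferInstance, h2.star, (not_menger h1).2⟩

end Pool.Agent.Results.MP_2a01b0_gt.Indep
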