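import Pool.Agent.H30.MtC

set_option autoImplicit false

namespace Pool.Agent.Results.MP_2a01b0_gt.Small

open Pool.Agent.H30.Mt Cardinal

/-- Every infinite second countable space of size below the continuum has property `(*)`. -/
theorem result (X : Type) [TopologicalSpace X] [SecondCountableTopology X] [Infinite X]
    (h : #X < 𝔠) : HasStar X :=
  (hit_of_lt h).star

end Pool.Agent.Results.MP_2a01b0_gt.Small
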